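import Mathlib

/-!
# Mass of a polynomial in the residue classes mod `q`, and the height of `R(x) F(x^q)`
-/

set_option autoImplicit false

open Polynomial Finset

namespace Pool.Agent.Helper77K9.Hgt

/-- the mass of the first `N` coefficients of `R` in the residue class `r` mod `q` -/
def ms (q : ℕ) (N : ℕ) (R : ℤ[X]) (r : ZMod q) : ℤ :=
  ∑ i ∈ range N, if (i : ZMod q) = r then |R.coeff i| else 0

variable {q : ℕ}

lemma ms_nonneg (N : ℕ) (R : ℤ[X]) (r : ZMod q) : 0 ≤ ms q N R r :=
  Finset.sum_nonneg fun i _ => by split_ifs <;> simp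

lemma ms_add_le (N : ℕ) (R S : ℤ[X]) (r : ZMod q) :
    ms q N (R + S) r ≤ ms q N R r + ms q N S r := by
  unfold ms
  rw [← Finset.sum_add_distrib]
  apply Finset.sum_le_sum
  intro i _
  split_ifs
  · rw [coeff_add]; exact abs_add_le _ _
  · simp

lemma ms_neg (N : ℕ) (R : ℤ[X]) (r : ZMod q) : ms q N (-R) r = ms q N R r := by
  unfold ms; simp

lemma ms_zero (N : ℕ) (r : ZMod q) : ms q N 0 r = 0 := by
  unfold ms; simp

lemma ms_sub_le (N : ℕ) (R S : ℤ[X]) (r : ZMod q) :
    ms q N (R - S) r ≤ ms q N R r + ms q N S r := by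
  rw [sub_eq_add_neg]
  refine (ms_add_le N R (-S) r).trans ?_
  rw [ms_neg]

lemma ms_sum_le {ι : Type*} (s : Finset ι) (f : ι → ℤ[X]) (N : ℕ) (r : ZMod q) :
    ms q N (∑ x ∈ s, f x) r ≤ ∑ x ∈ s, ms q N (f x) r := by
  classical
  induction s using Finset.induction_on with
  | empty => simp [ms_zero]
  | insert a s ha ih =>
    rw [Finset.sum_insert ha, Finset.sum_insert ha]
    exact (ms_add_le _ _ _ _).trans (by linarith)

lemma ms_X_pow (N k : ℕ) (r : ZMod q) :
    ms q N (X ^ k) r ≤ if (k : ZMod q) = r then 1 else 0 := by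
  unfold ms
  calc ∑ i ∈ range N, (if (i : ZMod q) = r then |(X ^ k : ℤ[X]).coeff i| else 0)
      ≤ ∑ i ∈ range N, (if i = k then (if (k : ZMod q) = r then (1 : ℤ) else 0) else 0) := by
        apply Finset.sum_le_sum
        intro i _
        rw [coeff_X_pow]
        by_cases h : i = k
        · subst h; simp
        · simp [h]
    _ ≤ if (k : ZMod q) = r then 1 else 0 := by
        rw [Finset.sum_ite_eq']
        split_ifs <;> simp

/-- shift -/
lemma ms_X_pow_mul (N k : ℕ) (R : ℤ[X]) (r : ZMod q) :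
    ms q N (X ^ k * R) r ≤ ms q N R (r - k) := by
  unfold ms
  have h1 : ∀ i ∈ range N, (if (i : ZMod q) = r then |(X ^ k * R).coeff i| else 0)
      ≤ if k ≤ i then (if ((i - k : ℕ) : ZMod q) = r - k then |R.coeff (i - k)| else 0) else 0 := by
    intro i _
    rw [coeff_X_pow_mul']
    by_cases hk : k ≤ i
    · simp only [hk, if_true]
      have : (((i - k : ℕ) : ZMod q) = r - k) ↔ ((i : ZMod q) = r) := by
        rw [Nat.cast_sub hk]; constructor
        · intro h; simpa using h
        · rintro rfl; rfl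
      by_cases h : (i : ZMod q) = r
      · rw [if_pos h, if_pos (this.2 h)]
      · rw [if_neg h, if_neg (fun h' => h (this.1 h'))]
    · simp [hk]
  refine (Finset.sum_le_sum h1).trans ?_
  rw [← Finset.sum_filter]
  calc ∑ i ∈ (range N).filter (fun i => k ≤ i),
        (if ((i - k : ℕ) : ZMod q) = r - k then |R.coeff (i - k)| else 0)
      = ∑ j ∈ ((range N).filter (fun i => k ≤ i)).image (fun i => i - k),
        (if (j : ZMod q) = r - k then |R.coeff j| else 0) := by
        rw [Finset.sum_image]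
        intro a ha b hb hab
        simp only [Finset.coe_filter, Finset.mem_range, Set.mem_setOf_eq] at ha hb
        simp only at hab
        omega
    _ ≤ ∑ j ∈ range N, (if (j : ZMod q) = r - k then |R.coeff j| else 0) := by
        apply Finset.sum_le_sum_of_subset_of_nonneg
        · intro j hj
          simp only [Finset.mem_image, Finset.mem_filter, Finset.mem_range] at hj ⊢
          omega
        · intro j _ _
          split_ifs <;> simp

/-- coefficients of `R(x) F(x^q)` -/
lemma coeff_mul_expand_le (hq : 0 < q) (R F : ℤ[X]) (M w : ℤ)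
    (hF : ∀ k, |F.coeff k| ≤ M) (hR : ∀ N r, ms q N R r ≤ w) (n : ℕ) :
    |(R * expand ℤ q F).coeff n| ≤ w * M := by
  have hM : 0 ≤ M := (abs_nonneg _).trans (hF 0)
  rw [coeff_mul, Finset.Nat.sum_antidiagonal_eq_sum_range_succ_mk]
  refine (Finset.abs_sum_le_sum_abs _ _).trans ?_
  calc ∑ k ∈ range n.succ, |R.coeff (k, n - k).1 * (expand ℤ q F).coeff (k, n - k).2|
      ≤ ∑ k ∈ range n.succ, (if (k : ZMod q) = (n : ZMod q) then |R.coeff k| else 0) * M := by
        apply Finset.sum_le_sum
        intro k hk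
        have hkn : k ≤ n := by simpa [Nat.lt_succ_iff] using hk
        simp only
        rw [abs_mul, coeff_expand hq]
        by_cases hd : q ∣ n - k
        · have : (k : ZMod q) = (n : ZMod q) := by
            rw [ZMod.natCast_eq_natCast_iff]
            exact (Nat.modEq_iff_dvd' hkn).2 hd
          rw [if_pos this, if_pos hd]
          exact mul_le_mul_of_nonneg_left (hF _) (abs_nonneg _)
        · rw [if_neg hd]
          simp only [abs_zero, mul_zero]
          split_ifs <;> positivity
    _ = ms q (n + 1) R n * M := by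
        rw [← Finset.sum_mul]; rfl
    _ ≤ w * M := mul_le_mul_of_nonneg_right (hR _ _) hM

/-- product with a sum of `a` powers of `x` -/
lemma ms_sum_X_pow_mul {ι : Type*} (s : Finset ι) (e : ι → ℕ) (R : ℤ[X]) (w : ℤ)
    (hR : ∀ N r, ms q N R r ≤ w) (N : ℕ) (r : ZMod q) :
    ms q N ((∑ x ∈ s, X ^ e x) * R) r ≤ s.card * w := by
  rw [Finset.sum_mul]
  refine (ms_sum_le _ _ _ _).trans ?_
  calc ∑ x ∈ s, ms q N (X ^ e x * R) r ≤ ∑ _x ∈ s, w :=
        Finset.sum_le_sum fun x _ => (ms_X_pow_mul _ _ _ _).trans (hR _ _)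
    _ = s.card * w := by simp

lemma ms_sub_one_mul (k : ℕ) (R : ℤ[X]) (N : ℕ) (r : ZMod q) :
    ms q N ((X ^ k - 1) * R) r ≤ ms q N R (r - k) + ms q N R r := by
  rw [sub_mul, one_mul]
  refine (ms_sub_le _ _ _ _).trans ?_
  have := ms_X_pow_mul N k R r
  linarith

lemma ms_one (N : ℕ) (r : ZMod q) : ms q N 1 r ≤ 1 := by
  have := ms_X_pow (q := q) N 0 r
  rw [pow_zero] at this
  refine this.trans ?_
  split_ifs <;> simp

/-- if the exponents `e x` are distinct mod `q` -/
lemma ms_sum_X_pow_le_one {ι : Type*} (s : Finset ι) (e : ι → ℕ)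
    (he : ∀ x ∈ s, ∀ y ∈ s, (e x : ZMod q) = e y → x = y) (N : ℕ) (r : ZMod q) :
    ms q N (∑ x ∈ s, X ^ e x) r ≤ 1 := by
  classical
  refine (ms_sum_le _ _ _ _).trans ?_
  calc ∑ x ∈ s, ms q N (X ^ e x) r ≤ ∑ x ∈ s, (if (e x : ZMod q) = r then (1 : ℤ) else 0) :=
        Finset.sum_le_sum fun x _ => ms_X_pow _ _ _
    _ = ((s.filter (fun x => (e x : ZMod q) = r)).card : ℤ) := by
        rw [Finset.sum_boole]
    _ ≤ 1 := by
        have : (s.filter (fun x => (e x : ZMod q) = r)).card ≤ 1 := by
          rw [Finset.card_le_one]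
          intro a ha b hb
          simp only [Finset.mem_filter] at ha hb
          exact he a ha.1 b hb.1 (ha.2.trans hb.2.symm)
        exact_mod_cast this

end Pool.Agent.Helper77K9.Hgt
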