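import Pool.Agent.Helper77K9.Hgt.Basic

/-!
# The sixteen divisors of `x^(pq) - 1` have mass at most `p` in each residue class mod `q`
-/

set_option autoImplicit false
set_option maxHeartbeats 400000

open Polynomial Finset

namespace Pool.Agent.Helper77K9.Hgt

lemma exists_uv (p q : ℕ) (hp : p.Prime) (hq : q.Prime) (hpq : p < q) :
    ∃ u v : ℕ, 0 < u ∧ u < q ∧ 0 < v ∧ v < p ∧ p * u + q * v = p * q + 1 := by
  have hcop : Nat.Coprime p q := (Nat.coprime_primes hp hq).2 hpq.ne
  obtain ⟨m, hm, hm'⟩ := Nat.exists_mul_mod_eq_one_of_coprime hcop hq.one_lt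
  have hdm := Nat.div_add_mod (p * m) q
  rw [hm'] at hdm
  set w := p * m / q with hw
  have hp2 := hp.two_le
  have hm0 : 0 < m := by
    rcases Nat.eq_zero_or_pos m with h | h
    · subst h; simp at hm'
    · exact h
  have hw0 : 0 < w := by
    rcases Nat.eq_zero_or_pos w with h | h
    · rw [h] at hdm
      have : 2 ≤ p * m := by nlinarith
      omega
    · exact h
  have hwp : w < p := by
    by_contra hcon
    push Not at hcon
    have h1 : q * p ≤ q * w := Nat.mul_le_mul_left _ hcon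
    have h2 : p * m < p * q := Nat.mul_lt_mul_of_pos_left hm hp.pos
    nlinarith
  refine ⟨m, p - w, hm0, hm, by omega, by omega, ?_⟩
  obtain ⟨c, hc⟩ := Nat.exists_eq_add_of_le hwp.le
  have : p - w = c := by omega
  rw [this, ← hdm]
  have h3 : p * q = w * q + c * q := by rw [← add_mul, ← hc]
  rw [h3]; ring

/-- geometric sums with step `d` -/
lemma geom_range (d n : ℕ) :
    (∑ i ∈ range n, (X : ℤ[X]) ^ (d * i)) * (X ^ d - 1) = X ^ (d * n) - 1 := by
  have := geom_sum_mul ((X : ℤ[X]) ^ d) n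
  simp only [← pow_mul] at this
  exact this

lemma geom_Ico (d a b : ℕ) (hab : a ≤ b) :
    (∑ i ∈ Ico a b, (X : ℤ[X]) ^ (d * i)) * (X ^ d - 1) = X ^ (d * b) - X ^ (d * a) := by
  have h1 := geom_range d a
  have h2 := geom_range d b
  rw [← Finset.sum_range_add_sum_Ico _ hab, add_mul, h1] at h2
  linear_combination h2

lemma cyc_p_mul (p : ℕ) (hp : p.Prime) : cyclotomic p ℤ * (X - 1) = X ^ p - 1 := by
  have := Fact.mk hp
  exact cyclotomic_prime_mul_X_sub_one ℤ p

lemma expand_cyc_p (p q : ℕ) (hp : p.Prime) (hq : q.Prime) (hpq : p ≠ q) :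
    expand ℤ q (cyclotomic p ℤ) = cyclotomic (p * q) ℤ * cyclotomic p ℤ := by
  apply cyclotomic_expand_eq_cyclotomic_mul hq
  intro h
  exact hpq ((Nat.prime_dvd_prime_iff_eq hq hp).1 h).symm

lemma expand_cyc_p_eq (p q : ℕ) (hp : p.Prime) :
    expand ℤ q (cyclotomic p ℤ) = ∑ i ∈ range p, X ^ (q * i) := by
  have := Fact.mk hp
  rw [cyclotomic_prime, map_sum]
  simp [← pow_mul]

lemma X_pow_ne (n : ℕ) (hn : 0 < n) : (X ^ n - 1 : ℤ[X]) ≠ 0 := by
  have := (monic_X_pow_sub_C (1 : ℤ) hn.ne').ne_zero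
  simpa using this

/-- `Φ_pq (x^p - 1)(x^q - 1) = (x^(pq) - 1)(x - 1)` -/
lemma cyc_pq_mul (p q : ℕ) (hp : p.Prime) (hq : q.Prime) (hpq : p ≠ q) :
    cyclotomic (p * q) ℤ * ((X ^ p - 1) * (X ^ q - 1)) = (X ^ (p * q) - 1) * (X - 1) := by
  have h1 := expand_cyc_p p q hp hq hpq
  have h2 := congrArg (expand ℤ q) (cyc_p_mul p hp)
  simp only [map_mul, map_sub, expand_X, map_one, map_pow] at h2
  rw [h1, ← pow_mul] at h2
  have h3 := cyc_p_mul p hp
  rw [← h3, mul_comm p q, ← h2, mul_comm q p]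
  ring

lemma cyc_pq_formula (p q u v : ℕ) (hp : p.Prime) (hq : q.Prime) (hpq : p ≠ q)
    (hu : u ≤ q) (hv : v ≤ p) (huv : p * u + q * v = p * q + 1) :
    cyclotomic (p * q) ℤ = (∑ x ∈ range u ×ˢ range v, X ^ (p * x.1 + q * x.2)) -
      ∑ x ∈ Ico u q ×ˢ Ico v p, X ^ (p * x.1 + q * x.2 - p * q) := by
  have hX : (X ^ (p * q) : ℤ[X]) ≠ 0 := pow_ne_zero _ X_ne_zero
  have hp0 : (X ^ p - 1 : ℤ[X]) ≠ 0 := X_pow_ne p hp.pos
  have hq0 : (X ^ q - 1 : ℤ[X]) ≠ 0 := X_pow_ne q hq.pos
  have hB : (X : ℤ[X]) ^ (p * q) * ∑ x ∈ Ico u q ×ˢ Ico v p, X ^ (p * x.1 + q * x.2 - p * q) =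
      (∑ i ∈ Ico u q, X ^ (p * i)) * ∑ j ∈ Ico v p, X ^ (q * j) := by
    rw [Finset.mul_sum, Finset.sum_mul_sum, ← Finset.sum_product']
    apply Finset.sum_congr rfl
    rintro ⟨i, j⟩ hx
    simp only [Finset.mem_product, Finset.mem_Ico] at hx
    have h1 : p * u ≤ p * i := Nat.mul_le_mul_left _ hx.1.1
    have h2 : q * v ≤ q * j := Nat.mul_le_mul_left _ hx.2.1
    rw [← pow_add, ← pow_add]
    congr 1
    simp only
    omega
  have hA : ∑ x ∈ range u ×ˢ range v, (X : ℤ[X]) ^ (p * x.1 + q * x.2) =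
      (∑ i ∈ range u, X ^ (p * i)) * ∑ j ∈ range v, X ^ (q * j) := by
    rw [Finset.sum_mul_sum, ← Finset.sum_product']
    apply Finset.sum_congr rfl
    rintro ⟨i, j⟩ _
    rw [pow_add]
  have hAB : (X : ℤ[X]) ^ (p * q) * ((∑ x ∈ range u ×ˢ range v, X ^ (p * x.1 + q * x.2)) -
      ∑ x ∈ Ico u q ×ˢ Ico v p, X ^ (p * x.1 + q * x.2 - p * q)) =
      X ^ (p * q) * ((∑ i ∈ range u, X ^ (p * i)) * ∑ j ∈ range v, X ^ (q * j)) -
      (∑ i ∈ Ico u q, X ^ (p * i)) * ∑ j ∈ Ico v p, X ^ (q * j) := by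
    rw [mul_sub, hB, hA]
  apply mul_left_cancel₀ hX
  apply mul_right_cancel₀ hp0
  apply mul_right_cancel₀ hq0
  rw [hAB]
  have e1 := geom_range p u
  have e2 := geom_range q v
  have e3 := geom_Ico p u q hu
  have e4 := geom_Ico q v p hv
  have e5 := cyc_pq_mul p q hp hq hpq
  have e6 : (X : ℤ[X]) ^ (p * u) * X ^ (q * v) = X ^ (p * q) * X := by
    rw [← pow_add, huv, pow_succ]
  rw [mul_comm q p] at e4
  set A := ∑ i ∈ range u, (X : ℤ[X]) ^ (p * i)
  set B := ∑ j ∈ range v, (X : ℤ[X]) ^ (q * j)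
  set C := ∑ i ∈ Ico u q, (X : ℤ[X]) ^ (p * i)
  set D := ∑ j ∈ Ico v p, (X : ℤ[X]) ^ (q * j)
  set a := (X : ℤ[X]) ^ (p * q)
  set s := (X : ℤ[X]) ^ (p * u)
  set t := (X : ℤ[X]) ^ (q * v)
  calc a * cyclotomic (p * q) ℤ * (X ^ p - 1) * (X ^ q - 1)
      = a * (cyclotomic (p * q) ℤ * ((X ^ p - 1) * (X ^ q - 1))) := by ring
    _ = a * ((a - 1) * (X - 1)) := by rw [e5]
    _ = a * ((s - 1) * (t - 1)) - (a - s) * (a - t) := by
        linear_combination (1 - a) * e6
    _ = a * ((A * (X ^ p - 1)) * (B * (X ^ q - 1))) - (C * (X ^ p - 1)) * (D * (X ^ q - 1)) := by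
        rw [e1, e2, e3, e4]
    _ = (a * (A * B) - C * D) * (X ^ p - 1) * (X ^ q - 1) := by ring

/-- the index of a residue class -/
lemma class_iff (p q u v : ℕ) [NeZero q]
    (huv : p * u + q * v = p * q + 1) (r : ZMod q) (i : ℕ) (hi : i < q) :
    ((p : ZMod q) * i = r) ↔ i = (r * (u : ZMod q)).val := by
  have h1 : (p : ZMod q) * u = 1 := by
    have := congrArg (Nat.cast : ℕ → ZMod q) huv
    push_cast at this
    simpa using this
  constructor
  · rintro rfl
    have : (p : ZMod q) * i * u = i := by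
      calc (p : ZMod q) * i * u = (p * u) * i := by ring
        _ = i := by rw [h1, one_mul]
    rw [this, ZMod.val_natCast, Nat.mod_eq_of_lt hi]
  · intro h
    have : (i : ZMod q) = r * u := by
      rw [h, ZMod.natCast_zmod_val]
    rw [this]
    calc (p : ZMod q) * (r * u) = (p * u) * r := by ring
      _ = r := by rw [h1, one_mul]

lemma sum_A (a b c d t : ℕ) :
    ∑ x ∈ Ico a b ×ˢ Ico c d, (if x.1 = t then (1 : ℤ) else 0) =
      if t ∈ Ico a b then ((d - c : ℕ) : ℤ) else 0 := by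
  rw [Finset.sum_product_right]
  simp only [Finset.sum_ite_eq', Finset.sum_const, Nat.card_Ico, nsmul_eq_mul]
  split_ifs <;> simp

/-- the mass of `Φ_pq` -/
lemma ms_cyc_pq (p q u v : ℕ) (hp : p.Prime) (hq : q.Prime) (hpq : p ≠ q)
    (hu : u ≤ q) (hv : v ≤ p) (huv : p * u + q * v = p * q + 1) (N : ℕ) (r : ZMod q) :
    ms q N (cyclotomic (p * q) ℤ) r ≤ if (r * (u : ZMod q)).val < u then (v : ℤ) else (p - v : ℕ) := by
  have : NeZero q := ⟨hq.ne_zero⟩
  rw [cyc_pq_formula p q u v hp hq hpq hu hv huv]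
  refine (ms_sub_le _ _ _ _).trans ?_
  set t := (r * (u : ZMod q)).val with ht
  have htq : t < q := ZMod.val_lt _
  have h1 : ms q N (∑ x ∈ range u ×ˢ range v, X ^ (p * x.1 + q * x.2)) r ≤
      if t < u then (v : ℤ) else 0 := by
    refine (ms_sum_le _ _ _ _).trans ?_
    calc ∑ x ∈ range u ×ˢ range v, ms q N (X ^ (p * x.1 + q * x.2)) r
        ≤ ∑ x ∈ Ico 0 u ×ˢ Ico 0 v, (if x.1 = t then (1 : ℤ) else 0) := by
          rw [Finset.range_eq_Ico, Finset.range_eq_Ico]
          apply Finset.sum_le_sum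
          rintro ⟨i, j⟩ hx
          simp only [Finset.mem_product, Finset.mem_Ico] at hx
          refine (ms_X_pow _ _ _).trans ?_
          have : ((p * i + q * j : ℕ) : ZMod q) = (p : ZMod q) * i := by
            push_cast; simp
          simp only [this]
          have h2 := class_iff p q u v huv r i (by omega)
          rw [← ht] at h2
          by_cases h : (p : ZMod q) * i = r
          · rw [if_pos h, if_pos (h2.1 h)]
          · rw [if_neg h, if_neg (fun h' => h (h2.2 h'))]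
      _ = if t ∈ Ico 0 u then ((v - 0 : ℕ) : ℤ) else 0 := sum_A 0 u 0 v t
      _ = if t < u then (v : ℤ) else 0 := by simp
  have h2 : ms q N (∑ x ∈ Ico u q ×ˢ Ico v p, X ^ (p * x.1 + q * x.2 - p * q)) r ≤
      if t < u then 0 else ((p - v : ℕ) : ℤ) := by
    refine (ms_sum_le _ _ _ _).trans ?_
    calc ∑ x ∈ Ico u q ×ˢ Ico v p, ms q N (X ^ (p * x.1 + q * x.2 - p * q)) r
        ≤ ∑ x ∈ Ico u q ×ˢ Ico v p, (if x.1 = t then (1 : ℤ) else 0) := by
          apply Finset.sum_le_sum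
          rintro ⟨i, j⟩ hx
          simp only [Finset.mem_product, Finset.mem_Ico] at hx
          refine (ms_X_pow _ _ _).trans ?_
          have h3 : p * u ≤ p * i := Nat.mul_le_mul_left _ hx.1.1
          have h4 : q * v ≤ q * j := Nat.mul_le_mul_left _ hx.2.1
          have : ((p * i + q * j - p * q : ℕ) : ZMod q) = (p : ZMod q) * i := by
            rw [Nat.cast_sub (by omega)]
            push_cast; simp
          simp only [this]
          have h2 := class_iff p q u v huv r i (by omega)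
          rw [← ht] at h2
          by_cases h : (p : ZMod q) * i = r
          · rw [if_pos h, if_pos (h2.1 h)]
          · rw [if_neg h, if_neg (fun h' => h (h2.2 h'))]
      _ = if t ∈ Ico u q then ((p - v : ℕ) : ℤ) else 0 := sum_A u q v p t
      _ ≤ if t < u then 0 else ((p - v : ℕ) : ℤ) := by
          simp only [Finset.mem_Ico]
          by_cases h : t < u
          · rw [if_neg (by omega), if_pos h]
          · rw [if_neg h]; split_ifs <;> simp
  refine (add_le_add h1 h2).trans ?_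
  split_ifs <;> simp

/-- the mass of `(x - 1) Φ_pq` -/
lemma ms_X_sub_one_cyc_pq (p q : ℕ) (hp : p.Prime) (hq : q.Prime) (hpq : p < q)
    (N : ℕ) (r : ZMod q) :
    ms q N ((X - 1) * cyclotomic (p * q) ℤ) r ≤ p := by
  have : NeZero q := ⟨hq.ne_zero⟩
  obtain ⟨u, v, hu0, hu, hv0, hv, huv⟩ := exists_uv p q hp hq hpq
  have h0 := ms_sub_one_mul (q := q) 1 (cyclotomic (p * q) ℤ) N r
  rw [pow_one] at h0
  refine h0.trans ?_
  have h1 := ms_cyc_pq p q u v hp hq hpq.ne hu.le hv.le huv N r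
  have h2 := ms_cyc_pq p q u v hp hq hpq.ne hu.le hv.le huv N (r - (1 : ℕ))
  set t := (r * (u : ZMod q)).val with ht
  set s := ((r - (1 : ℕ)) * (u : ZMod q)).val with hs
  have htq : t < q := ZMod.val_lt _
  have hsq : s < q := ZMod.val_lt _
  -- t = s + u mod q
  have hst : t = (s + u) % q := by
    have h3 : r * (u : ZMod q) = (r - (1 : ℕ)) * (u : ZMod q) + u := by push_cast; ring
    rw [ht, h3, ZMod.val_add, hs, ZMod.val_natCast, Nat.mod_eq_of_lt hu]
  have hcase : (s + u < q ∧ t = s + u) ∨ (q ≤ s + u ∧ t + q = s + u) := by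
    rcases lt_or_ge (s + u) q with h | h
    · left; exact ⟨h, by rw [hst, Nat.mod_eq_of_lt h]⟩
    · right
      refine ⟨h, ?_⟩
      have : (s + u) % q = s + u - q := by
        rw [Nat.mod_eq_sub_mod h, Nat.mod_eq_of_lt (by omega)]
      omega
  have hp2 := hp.two_le
  by_cases c1 : t < u
  · by_cases c2 : s < u
    · rw [if_pos c1] at h1
      rw [if_pos c2] at h2
      -- wrap: q ≤ s + u, hence q + 1 ≤ 2u
      have hq2 : q + 1 ≤ 2 * u := by omega
      have h5 : p * (q + 1) ≤ p * (2 * u) := Nat.mul_le_mul_left _ hq2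
      have h6 : 2 * v ≤ p := by
        by_contra hcon
        push Not at hcon
        have h7 : q * (p + 1) ≤ q * (2 * v) := Nat.mul_le_mul_left _ hcon
        nlinarith
      have : (2 * v : ℤ) ≤ p := by exact_mod_cast h6
      push_cast at h2 ⊢
      linarith
    · rw [if_pos c1] at h1
      rw [if_neg c2] at h2
      have : ((p - v : ℕ) : ℤ) = p - v := by
        rw [Nat.cast_sub hv.le]
      rw [this] at h2
      linarith
  · by_cases c2 : s < u
    · rw [if_neg c1] at h1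
      rw [if_pos c2] at h2
      have : ((p - v : ℕ) : ℤ) = p - v := by
        rw [Nat.cast_sub hv.le]
      rw [this] at h1
      linarith
    · rw [if_neg c1] at h1
      rw [if_neg c2] at h2
      have hq2 : 2 * u + 1 ≤ q := by omega
      have h5 : p * (2 * u + 1) ≤ p * q := Nat.mul_le_mul_left _ hq2
      have h6 : p ≤ 2 * v := by
        by_contra hcon
        push Not at hcon
        have h7 : q * (2 * v + 1) ≤ q * p := Nat.mul_le_mul_left _ hcon
        nlinarith
      have : ((p - v : ℕ) : ℤ) = p - v := by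
        rw [Nat.cast_sub hv.le]
      rw [this] at h1 h2
      have : (p : ℤ) ≤ 2 * v := by exact_mod_cast h6
      linarith

end Pool.Agent.Helper77K9.Hgt
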