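import Pool.Agent.Helper77K9.Hgt.Cyc

/-!
# Heights of divisors of `x^(p q^b) - 1`
-/

set_option autoImplicit false
set_option maxHeartbeats 400000

open Polynomial Finset

namespace Pool.Agent.Helper77K9.Hgt

/-- the height -/
def height (f : ℤ[X]) : ℕ := f.support.sup fun i => (f.coeff i).natAbs

lemma abs_coeff_le_height (f : ℤ[X]) (k : ℕ) : |f.coeff k| ≤ height f := by
  by_cases h : k ∈ f.support
  · have := Finset.le_sup (f := fun i => (f.coeff i).natAbs) h
    have h2 : (f.coeff k).natAbs ≤ height f := this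
    rw [Int.abs_eq_natAbs]
    exact_mod_cast h2
  · rw [notMem_support_iff.1 h]; simp

lemma height_le {f : ℤ[X]} {M : ℕ} (h : ∀ k, |f.coeff k| ≤ (M : ℤ)) : height f ≤ M := by
  unfold height
  apply Finset.sup_le
  intro k _
  have := h k
  rw [Int.abs_eq_natAbs] at this
  exact_mod_cast this

lemma exists_coeff_eq_height {f : ℤ[X]} (hf : f ≠ 0) : ∃ k, |f.coeff k| = height f := by
  obtain ⟨k, hk, hk'⟩ := Finset.exists_mem_eq_sup f.support (Polynomial.support_nonempty.2 hf)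
    (fun i => (f.coeff i).natAbs)
  refine ⟨k, ?_⟩
  rw [Int.abs_eq_natAbs]
  unfold height
  exact_mod_cast hk'.symm

/-- the sixteen divisors -/
lemma mass_le (p q : ℕ) (hp : p.Prime) (hq : q.Prime) (hpq : p < q) (f0 f1 f2 f3 : ℤ[X])
    (h0 : f0 = 1 ∨ f0 = X - 1) (h1 : f1 = 1 ∨ f1 = cyclotomic p ℤ)
    (h2 : f2 = 1 ∨ f2 = cyclotomic q ℤ) (h3 : f3 = 1 ∨ f3 = cyclotomic (p * q) ℤ)
    (N : ℕ) (r : ZMod q) : ms q N (f0 * (f1 * (f2 * f3))) r ≤ p := by
  have : NeZero q := ⟨hq.ne_zero⟩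
  have hfp := Fact.mk hp
  have hfq := Fact.mk hq
  have hp2 : (2 : ℤ) ≤ p := by exact_mod_cast hp.two_le
  have hcp := cyc_p_mul p hp
  -- products with a polynomial of mass at most one
  have key : ∀ R : ℤ[X], (∀ N r, ms q N R r ≤ 1) → ms q N (f0 * (f1 * R)) r ≤ p := by
    intro R hR
    rcases h0 with rfl | rfl <;> rcases h1 with rfl | rfl
    · rw [one_mul, one_mul]
      linarith [hR N r]
    · rw [one_mul, cyclotomic_prime]
      have := ms_sum_X_pow_mul (q := q) (range p) (fun i => i) R 1 hR N r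
      simpa using this
    · rw [one_mul]
      have h := ms_sub_one_mul (q := q) 1 R N r
      rw [pow_one] at h
      linarith [hR N r, hR N (r - (1 : ℕ))]
    · rw [← mul_assoc, mul_comm (X - 1), hcp]
      have h := ms_sub_one_mul (q := q) p R N r
      linarith [hR N r, hR N (r - p)]
  rcases h3 with rfl | rfl
  · rw [mul_one]
    apply key
    rcases h2 with rfl | rfl
    · exact fun N r => ms_one N r
    · intro N r
      rw [cyclotomic_prime]
      apply ms_sum_X_pow_le_one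
      intro x hx y hy hxy
      rw [Finset.mem_range] at hx hy
      rw [ZMod.natCast_eq_natCast_iff'] at hxy
      rwa [Nat.mod_eq_of_lt hx, Nat.mod_eq_of_lt hy] at hxy
  · rcases h2 with rfl | rfl
    · rw [one_mul]
      have hexp : cyclotomic p ℤ * cyclotomic (p * q) ℤ = ∑ i ∈ range p, X ^ (q * i) := by
        rw [mul_comm, ← expand_cyc_p p q hp hq hpq.ne, expand_cyc_p_eq p q hp]
      have hm : ∀ N r, ms q N (∑ i ∈ range p, (X : ℤ[X]) ^ (q * i)) r ≤ if r = 0 then (p : ℤ) else 0 := by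
        intro N r
        refine (ms_sum_le _ _ _ _).trans ?_
        calc ∑ i ∈ range p, ms q N (X ^ (q * i)) r ≤ ∑ i ∈ range p, (if r = 0 then (1 : ℤ) else 0) := by
              apply Finset.sum_le_sum
              intro i _
              refine (ms_X_pow _ _ _).trans ?_
              have : ((q * i : ℕ) : ZMod q) = 0 := by push_cast; simp
              rw [this]
              by_cases h : r = 0
              · rw [if_pos h, if_pos h.symm]
              · rw [if_neg h, if_neg (fun h' => h h'.symm)]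
          _ = if r = 0 then (p : ℤ) else 0 := by
              rw [Finset.sum_const, Finset.card_range]
              split_ifs <;> simp
      rcases h0 with rfl | rfl <;> rcases h1 with rfl | rfl
      · rw [one_mul, one_mul]
        obtain ⟨u, v, hu0, hu, hv0, hv, huv⟩ := exists_uv p q hp hq hpq
        refine (ms_cyc_pq p q u v hp hq hpq.ne hu.le hv.le huv N r).trans ?_
        split_ifs
        · exact_mod_cast hv.le
        · exact_mod_cast Nat.sub_le _ _
      · rw [one_mul, hexp]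
        refine (hm N r).trans ?_
        split_ifs
        · exact le_rfl
        · linarith
      · rw [one_mul]
        exact ms_X_sub_one_cyc_pq p q hp hq hpq N r
      · rw [hexp]
        have h := ms_sub_one_mul (q := q) 1 (∑ i ∈ range p, (X : ℤ[X]) ^ (q * i)) N r
        rw [pow_one] at h
        refine h.trans ?_
        have a1 := hm N r
        have a2 := hm N (r - (1 : ℕ))
        by_cases hr : r = 0
        · have : r - ((1 : ℕ) : ZMod q) ≠ 0 := by
            rw [hr]; simp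
          rw [if_neg this] at a2
          rw [if_pos hr] at a1
          linarith
        · rw [if_neg hr] at a1
          have : (if r - ((1 : ℕ) : ZMod q) = 0 then (p : ℤ) else 0) ≤ p := by
            split_ifs <;> linarith
          linarith
    · apply key
      intro N r
      have : cyclotomic q ℤ * cyclotomic (p * q) ℤ = ∑ i ∈ range q, X ^ (p * i) := by
        rw [mul_comm, mul_comm p q, ← expand_cyc_p q p hq hp hpq.ne', expand_cyc_p_eq q p hq]
      rw [this]
      apply ms_sum_X_pow_le_one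
      intro x hx y hy hxy
      rw [Finset.mem_range] at hx hy
      have hcop : Nat.Coprime q p := (Nat.coprime_primes hq hp).2 hpq.ne'
      rw [ZMod.natCast_eq_natCast_iff] at hxy
      have := Nat.ModEq.cancel_left_of_coprime (by simpa using hcop) hxy
      have h5 : x % q = y % q := this
      rwa [Nat.mod_eq_of_lt hx, Nat.mod_eq_of_lt hy] at h5

/-! ### Divisors -/

lemma dvd_irred {a b : ℤ[X]} (hb : Irreducible b) (h : a ∣ b) :
    ∃ c : ℤ, IsUnit c ∧ (a = C c * 1 ∨ a = C c * b) := by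
  rcases hb.dvd_iff.1 h with h | h
  · obtain ⟨c, hc, hc'⟩ := Polynomial.isUnit_iff.1 h
    exact ⟨c, hc, Or.inl (by rw [mul_one, hc'])⟩
  · obtain ⟨u, hu⟩ := h
    obtain ⟨c, hc, hc'⟩ := Polynomial.isUnit_iff.1 u.isUnit
    exact ⟨c, hc, Or.inr (by rw [hc', mul_comm, hu])⟩

lemma dvd_expand {q : ℕ} (l : List ℤ[X]) (hl : ∀ P ∈ l, Irreducible (expand ℤ q P)) (f : ℤ[X])
    (hf : f ∣ expand ℤ q l.prod) : ∃ F, F ∣ l.prod ∧ f = expand ℤ q F := by
  induction l generalizing f with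
  | nil =>
    simp only [List.prod_nil, map_one] at hf
    obtain ⟨c, hc, hc'⟩ := Polynomial.isUnit_iff.1 (isUnit_of_dvd_one hf)
    exact ⟨C c, (hc.map C).dvd, by rw [expand_C, hc']⟩
  | cons P l ih =>
    rw [List.prod_cons, map_mul] at hf
    obtain ⟨a, b, ha, hb, rfl⟩ := exists_dvd_and_dvd_of_dvd_mul hf
    obtain ⟨F, hF, rfl⟩ := ih (fun Q hQ => hl Q (List.mem_cons_of_mem _ hQ)) b hb
    obtain ⟨c, hc, h | h⟩ := dvd_irred (hl P List.mem_cons_self) ha
    · refine ⟨C c * F, ?_, ?_⟩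
      · rw [List.prod_cons]
        exact (((hc.map C).mul_left_dvd).2 hF).mul_left P
      · rw [h, map_mul, expand_C, mul_one]
    · refine ⟨C c * P * F, ?_, ?_⟩
      · rw [List.prod_cons]
        exact mul_dvd_mul (((hc.map C).mul_left_dvd).2 dvd_rfl) hF
      · rw [h, map_mul, map_mul, expand_C]

/-- the irreducible factors of `(x^(p q^b) - 1)/(x^p - 1)` -/
noncomputable def lst (p q : ℕ) : ℕ → List ℤ[X]
  | 0 => []
  | b + 1 => cyclotomic q ℤ :: cyclotomic (p * q) ℤ :: (lst p q b).map (expand ℤ q)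

lemma lst_mem (p q : ℕ) (hq : q.Prime) : ∀ b, ∀ P ∈ lst p q b,
    ∃ j, P = cyclotomic (q ^ (j + 1)) ℤ ∨ P = cyclotomic (p * q ^ (j + 1)) ℤ
  | 0, P, hP => by simp [lst] at hP
  | b + 1, P, hP => by
    simp only [lst, List.mem_cons, List.mem_map] at hP
    rcases hP with rfl | rfl | ⟨Q, hQ, rfl⟩
    · exact ⟨0, Or.inl (by simp)⟩
    · exact ⟨0, Or.inr (by simp)⟩
    · obtain ⟨j, rfl | rfl⟩ := lst_mem p q hq b Q hQ
      · refine ⟨j + 1, Or.inl ?_⟩
        rw [cyclotomic_expand_eq_cyclotomic hq (dvd_pow_self _ (by omega)), ← pow_succ]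
      · refine ⟨j + 1, Or.inr ?_⟩
        rw [cyclotomic_expand_eq_cyclotomic hq ((dvd_pow_self _ (by omega)).mul_left _), mul_assoc,
          ← pow_succ]

lemma lst_irr (p q : ℕ) (hp : p.Prime) (hq : q.Prime) (b : ℕ) :
    ∀ P ∈ lst p q b, Irreducible (expand ℤ q P) := by
  intro P hP
  have h : expand ℤ q P ∈ lst p q (b + 1) := by
    simp only [lst, List.mem_cons, List.mem_map]
    exact Or.inr (Or.inr ⟨P, hP, rfl⟩)
  obtain ⟨j, h | h⟩ := lst_mem p q hq (b + 1) _ h
  · rw [h]; exact cyclotomic.irreducible (pow_pos hq.pos _)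
  · rw [h]; exact cyclotomic.irreducible (Nat.mul_pos hp.pos (pow_pos hq.pos _))

/-- `(x^(p q^b) - 1)/(x^p - 1)` -/
noncomputable def EE (p q b : ℕ) : ℤ[X] := (lst p q b).prod

lemma EE_zero (p q : ℕ) : EE p q 0 = 1 := rfl

lemma EE_succ (p q b : ℕ) : EE p q (b + 1) =
    cyclotomic q ℤ * (cyclotomic (p * q) ℤ * expand ℤ q (EE p q b)) := by
  unfold EE
  simp only [lst, List.prod_cons]
  rw [map_list_prod]

/-- `x^(pq) - 1 = (x - 1) Φ_p Φ_q Φ_pq` -/
lemma four (p q : ℕ) (hp : p.Prime) (hq : q.Prime) (hpq : p ≠ q) :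
    (X : ℤ[X]) ^ (p * q) - 1 = (X ^ p - 1) * (cyclotomic q ℤ * cyclotomic (p * q) ℤ) := by
  have h2 := congrArg (expand ℤ p) (cyc_p_mul q hq)
  simp only [map_mul, map_sub, expand_X, map_one, map_pow] at h2
  rw [expand_cyc_p q p hq hp hpq.symm, ← pow_mul, mul_comm q p] at h2
  rw [← h2]; ring

lemma EE_mul (p q : ℕ) (hp : p.Prime) (hq : q.Prime) (hpq : p ≠ q) (b : ℕ) :
    EE p q b * (X ^ p - 1) = X ^ (p * q ^ b) - 1 := by
  induction b with
  | zero => simp [EE_zero]
  | succ b ih =>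
    have h := congrArg (expand ℤ q) ih
    simp only [map_mul, map_sub, expand_X, map_one, map_pow] at h
    rw [← pow_mul, ← pow_mul, mul_comm q p, four p q hp hq hpq] at h
    rw [EE_succ, pow_succ]
    have e : p * (q ^ b * q) = q * (p * q ^ b) := by ring
    rw [e, ← h]; ring

lemma total (p q : ℕ) (hp : p.Prime) (hq : q.Prime) (hpq : p ≠ q) (b : ℕ) :
    (X : ℤ[X]) ^ (p * q ^ (b + 1)) - 1 = (X - 1) * (cyclotomic p ℤ *
      (cyclotomic q ℤ * (cyclotomic (p * q) ℤ * expand ℤ q (EE p q b)))) := by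
  rw [← EE_mul p q hp hq hpq (b + 1), EE_succ, ← cyc_p_mul p hp]; ring

lemma X_sub_one_irr : Irreducible (X - 1 : ℤ[X]) := by
  rw [← cyclotomic_one]; exact cyclotomic.irreducible one_pos

lemma cyc_irr {n : ℕ} (hn : 0 < n) : Irreducible (cyclotomic n ℤ) := cyclotomic.irreducible hn

/-- shape of the divisors of `(x^(p q^(b+1)) - 1)/(x^p - 1)` -/
lemma shape_E (p q : ℕ) (hp : p.Prime) (hq : q.Prime) (b : ℕ) (f : ℤ[X])
    (hf : f ∣ cyclotomic q ℤ * (cyclotomic (p * q) ℤ * expand ℤ q (EE p q b))) :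
    ∃ f2 f3 F : ℤ[X], (f2 = 1 ∨ f2 = cyclotomic q ℤ) ∧ (f3 = 1 ∨ f3 = cyclotomic (p * q) ℤ) ∧
      F ∣ EE p q b ∧ f = f2 * f3 * expand ℤ q F := by
  obtain ⟨a2, b2, ha2, hb2, rfl⟩ := exists_dvd_and_dvd_of_dvd_mul hf
  obtain ⟨a3, b3, ha3, hb3, rfl⟩ := exists_dvd_and_dvd_of_dvd_mul hb2
  obtain ⟨F, hF, rfl⟩ := dvd_expand (lst p q b) (lst_irr p q hp hq b) b3 hb3
  obtain ⟨c2, hc2, h2⟩ := dvd_irred (cyc_irr hq.pos) ha2
  obtain ⟨c3, hc3, h3⟩ := dvd_irred (cyc_irr (Nat.mul_pos hp.pos hq.pos)) ha3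
  have hcc : IsUnit (C (c2 * c3) : ℤ[X]) := (hc2.mul hc3).map C
  have h2' : ∃ f2 : ℤ[X], (f2 = 1 ∨ f2 = cyclotomic q ℤ) ∧ a2 = C c2 * f2 := by
    rcases h2 with h | h
    · exact ⟨1, Or.inl rfl, h⟩
    · exact ⟨_, Or.inr rfl, h⟩
  have h3' : ∃ f3 : ℤ[X], (f3 = 1 ∨ f3 = cyclotomic (p * q) ℤ) ∧ a3 = C c3 * f3 := by
    rcases h3 with h | h
    · exact ⟨1, Or.inl rfl, h⟩
    · exact ⟨_, Or.inr rfl, h⟩
  obtain ⟨f2, hf2, rfl⟩ := h2'
  obtain ⟨f3, hf3, rfl⟩ := h3'
  refine ⟨f2, f3, C (c2 * c3) * F, hf2, hf3, (hcc.mul_left_dvd).2 hF, ?_⟩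
  rw [map_mul, expand_C, C_mul]; ring

/-- shape of the divisors of `x^(p q^(b+1)) - 1` -/
lemma shape (p q : ℕ) (hp : p.Prime) (hq : q.Prime) (hpq : p ≠ q) (b : ℕ) (f : ℤ[X])
    (hf : f ∣ X ^ (p * q ^ (b + 1)) - 1) :
    ∃ f0 f1 f2 f3 F : ℤ[X], (f0 = 1 ∨ f0 = X - 1) ∧ (f1 = 1 ∨ f1 = cyclotomic p ℤ) ∧
      (f2 = 1 ∨ f2 = cyclotomic q ℤ) ∧ (f3 = 1 ∨ f3 = cyclotomic (p * q) ℤ) ∧
      F ∣ EE p q b ∧ f = f0 * (f1 * (f2 * f3)) * expand ℤ q F := by
  rw [total p q hp hq hpq] at hf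
  obtain ⟨a0, b0, ha0, hb0, rfl⟩ := exists_dvd_and_dvd_of_dvd_mul hf
  obtain ⟨a1, b1, ha1, hb1, rfl⟩ := exists_dvd_and_dvd_of_dvd_mul hb0
  obtain ⟨f2, f3, F, hf2, hf3, hF, rfl⟩ := shape_E p q hp hq b b1 hb1
  obtain ⟨c0, hc0, h0⟩ := dvd_irred X_sub_one_irr ha0
  obtain ⟨c1, hc1, h1⟩ := dvd_irred (cyc_irr hp.pos) ha1
  have hcc : IsUnit (C (c0 * c1) : ℤ[X]) := (hc0.mul hc1).map C
  have h0' : ∃ f0 : ℤ[X], (f0 = 1 ∨ f0 = X - 1) ∧ a0 = C c0 * f0 := by
    rcases h0 with h | h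
    · exact ⟨1, Or.inl rfl, h⟩
    · exact ⟨_, Or.inr rfl, h⟩
  have h1' : ∃ f1 : ℤ[X], (f1 = 1 ∨ f1 = cyclotomic p ℤ) ∧ a1 = C c1 * f1 := by
    rcases h1 with h | h
    · exact ⟨1, Or.inl rfl, h⟩
    · exact ⟨_, Or.inr rfl, h⟩
  obtain ⟨f0, hf0, rfl⟩ := h0'
  obtain ⟨f1, hf1, rfl⟩ := h1'
  refine ⟨f0, f1, f2, f3, C (c0 * c1) * F, hf0, hf1, hf2, hf3, (hcc.mul_left_dvd).2 hF, ?_⟩
  rw [map_mul, expand_C, C_mul]; ring

/-- heights of the divisors of `E_b` are bounded -/
lemma height_EE_le (p q : ℕ) (hp : p.Prime) (hq : q.Prime) (hpq : p < q) (b : ℕ) :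
    ∀ f, f ∣ EE p q b → height f ≤ p ^ b := by
  induction b with
  | zero =>
    intro f hf
    rw [EE_zero] at hf
    obtain ⟨c, hc, rfl⟩ := Polynomial.isUnit_iff.1 (isUnit_of_dvd_one hf)
    apply height_le
    intro k
    rw [coeff_C]
    have : |c| = 1 := by rcases Int.isUnit_iff.1 hc with h | h <;> simp [h]
    split_ifs
    · rw [this]; simp
    · simp
  | succ b ih =>
    intro f hf
    rw [EE_succ] at hf
    obtain ⟨f2, f3, F, hf2, hf3, hF, rfl⟩ := shape_E p q hp hq b f hf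
    apply height_le
    intro k
    have h := coeff_mul_expand_le hq.pos (1 * (1 * (f2 * f3))) F (height F) p
      (abs_coeff_le_height F)
      (fun N r => mass_le p q hp hq hpq 1 1 f2 f3 (Or.inl rfl) (Or.inl rfl) hf2 hf3 N r) k
    rw [one_mul, one_mul] at h
    refine h.trans ?_
    have h2 : (height F : ℤ) ≤ (p : ℤ) ^ b := by exact_mod_cast ih F hF
    push_cast
    rw [pow_succ, mul_comm]
    exact mul_le_mul_of_nonneg_right h2 (by positivity)

/-- upper bound -/
lemma upper (p q : ℕ) (hp : p.Prime) (hq : q.Prime) (hpq : p < q) (b M : ℕ)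
    (hM : ∀ F, F ∣ EE p q b → height F ≤ M) (f : ℤ[X]) (hf : f ∣ X ^ (p * q ^ (b + 1)) - 1) :
    height f ≤ p * M := by
  obtain ⟨f0, f1, f2, f3, F, h0, h1, h2, h3, hF, rfl⟩ := shape p q hp hq hpq.ne b f hf
  apply height_le
  intro k
  have h := coeff_mul_expand_le hq.pos (f0 * (f1 * (f2 * f3))) F M p
    (fun k => (abs_coeff_le_height F k).trans (by exact_mod_cast hM F hF))
    (fun N r => mass_le p q hp hq hpq f0 f1 f2 f3 h0 h1 h2 h3 N r) k
  push_cast
  exact h

/-- coefficients of `Φ_q(x) F(x^q)` -/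
lemma coeff_cyc_q_mul (q : ℕ) (hq : q.Prime) (F : ℤ[X]) (k r : ℕ) (hr : r < q) :
    (cyclotomic q ℤ * expand ℤ q F).coeff (q * k + r) = F.coeff k := by
  have := Fact.mk hq
  rw [cyclotomic_prime, Finset.sum_mul, finsetSum_coeff]
  rw [Finset.sum_eq_single r]
  · rw [coeff_X_pow_mul, coeff_expand hq.pos, if_pos (dvd_mul_right q k),
      Nat.mul_div_cancel_left k hq.pos]
  · intro j hj hjr
    rw [Finset.mem_range] at hj
    rw [coeff_X_pow_mul']
    split_ifs with h
    · rw [coeff_expand hq.pos, if_neg]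
      intro hd
      rcases lt_or_gt_of_ne hjr with h1 | h1
      · have h2 : q * k + r - j = q * k + (r - j) := by omega
        rw [h2] at hd
        have h3 := (Nat.dvd_add_right (dvd_mul_right q k)).1 hd
        exact absurd (Nat.le_of_dvd (by omega) h3) (by omega)
      · have h2 : q * k + r - j + (j - r) = q * k := by omega
        have h3 : q ∣ q * k + r - j + (j - r) := by rw [h2]; exact dvd_mul_right q k
        have h4 := (Nat.dvd_add_right hd).1 h3
        exact absurd (Nat.le_of_dvd (by omega) h4) (by omega)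
    · rfl
  · intro h
    exact absurd (Finset.mem_range.2 hr) h

/-- lower bound -/
lemma lower (p q : ℕ) (hp : p.Prime) (hq : q.Prime) (hpq : p < q) (b : ℕ) (F : ℤ[X])
    (hF : F ∣ EE p q b) :
    ∃ f : ℤ[X], f ∣ X ^ (p * q ^ (b + 1)) - 1 ∧ p * height F ≤ height f := by
  have hfp := Fact.mk hp
  refine ⟨cyclotomic p ℤ * (cyclotomic q ℤ * expand ℤ q F), ?_, ?_⟩
  · obtain ⟨G, hG⟩ := hF
    refine ⟨(X - 1) * (cyclotomic (p * q) ℤ * expand ℤ q G), ?_⟩
    rw [total p q hp hq hpq.ne, hG, map_mul]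
    ring
  · have hE : EE p q b ≠ 0 := by
      intro h
      have h2 := EE_mul p q hp hq hpq.ne b
      rw [h, zero_mul] at h2
      exact X_pow_ne (p * q ^ b) (Nat.mul_pos hp.pos (pow_pos hq.pos _)) h2.symm
    have hF0 : F ≠ 0 := fun h => hE (by rw [h] at hF; exact zero_dvd_iff.1 hF)
    obtain ⟨k, hk⟩ := exists_coeff_eq_height hF0
    have hc : (cyclotomic p ℤ * (cyclotomic q ℤ * expand ℤ q F)).coeff (q * k + (p - 1)) =
        p * F.coeff k := by
      rw [cyclotomic_prime ℤ p, Finset.sum_mul, finsetSum_coeff]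
      calc ∑ i ∈ range p, (X ^ i * (cyclotomic q ℤ * expand ℤ q F)).coeff (q * k + (p - 1))
          = ∑ i ∈ range p, F.coeff k := by
            apply Finset.sum_congr rfl
            intro i hi
            rw [Finset.mem_range] at hi
            rw [coeff_X_pow_mul', if_pos (by omega)]
            have : q * k + (p - 1) - i = q * k + (p - 1 - i) := by omega
            rw [this]
            exact coeff_cyc_q_mul q hq F k _ (by omega)
        _ = p * F.coeff k := by simp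
    have h := abs_coeff_le_height (cyclotomic p ℤ * (cyclotomic q ℤ * expand ℤ q F))
      (q * k + (p - 1))
    rw [hc, abs_mul, hk] at h
    have : |(p : ℤ)| = p := abs_of_nonneg (by positivity)
    rw [this] at h
    exact_mod_cast h

end Pool.Agent.Helper77K9.Hgt
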